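import Pool.Agent.W544.PG.Defs4

set_option autoImplicit false

/-!
# Goursat's lemma for products of orthogonal Lie algebras
-/

open Matrix Finset Module

namespace Pool.Agent.W756.PG

open Pool.Agent.W544.PG

theorem br_zero_left {n : ℕ} (b : Matrix (Fin n) (Fin n) ℂ) : br 0 b = 0 := by simp [br]

theorem br_zero_right {n : ℕ} (b : Matrix (Fin n) (Fin n) ℂ) : br b 0 = 0 := by simp [br]

/-- two elements of `so(n)` which do not commute -/
theorem exists_br_ne {n : ℕ} (hn : 3 ≤ n) : ∃ Z Z' : Matrix (Fin n) (Fin n) ℂ, Zᵀ = -Z ∧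
    Z'ᵀ = -Z' ∧ br Z Z' ≠ 0 := by
  set a : Fin n := ⟨0, by omega⟩
  set b : Fin n := ⟨1, by omega⟩
  set c : Fin n := ⟨2, by omega⟩
  have hab : a ≠ b := by simp [a, b]
  have hbc : b ≠ c := by simp [b, c]
  have hac : a ≠ c := by simp [a, c]
  refine ⟨Matrix.single a b 1 - Matrix.single b a 1, Matrix.single b c 1 - Matrix.single c b 1,
    ?_, ?_, ?_⟩
  · rw [transpose_sub, transpose_single, transpose_single]; abel
  · rw [transpose_sub, transpose_single, transpose_single]; abel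
  · intro h
    have h1 := congrFun (congrFun h a) c
    unfold br at h1
    simp only [sub_mul, mul_sub, Matrix.sub_apply, Matrix.zero_apply] at h1
    simp [Matrix.single_mul_single_same, Matrix.single_mul_single_of_ne, hab, hbc, hac, hab.symm,
      hbc.symm, hac.symm, Matrix.single_apply] at h1

theorem gou (hs : S_sim) : S_gou := by
  classical
  intro r m hm h hskew hbr hsurj hne
  -- the ideals
  have L1 : ∀ (A : Finset (Fin r)) (j : Fin r), (∃ y ∈ h, (∀ i ∈ A, y i = 0) ∧ y j ≠ 0) →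
      ∀ Z : Matrix (Fin (m j)) (Fin (m j)) ℂ, Zᵀ = -Z →
        ∃ y ∈ h, (∀ i ∈ A, y i = 0) ∧ y j = Z := by
    intro A j ⟨y0, hy0, hA0, hj0⟩ Z hZ
    let K : Submodule ℂ (∀ i : Fin r, Matrix (Fin (m i)) (Fin (m i)) ℂ) :=
      { carrier := {y | y ∈ h ∧ ∀ i ∈ A, y i = 0}
        add_mem' := by
          rintro a b ⟨ha, ha'⟩ ⟨hb, hb'⟩
          exact ⟨h.add_mem ha hb, fun i hi => by rw [Pi.add_apply, ha' i hi, hb' i hi, add_zero]⟩
        zero_mem' := ⟨h.zero_mem, fun i _ => rfl⟩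
        smul_mem' := by
          rintro c a ⟨ha, ha'⟩
          exact ⟨h.smul_mem c ha, fun i hi => by rw [Pi.smul_apply, ha' i hi, smul_zero]⟩ }
    let J : Submodule ℂ (Matrix (Fin (m j)) (Fin (m j)) ℂ) := K.map (LinearMap.proj j)
    have hJ : ∀ x, x ∈ J ↔ ∃ y, (y ∈ h ∧ ∀ i ∈ A, y i = 0) ∧ y j = x := fun x => Iff.rfl
    have h1 : Z ∈ J := by
      refine hs (m j) (hm j).1 (hm j).2 J ?_ ?_ ?_ Z hZ
      · intro x hx
        obtain ⟨y, ⟨hy, _⟩, rfl⟩ := (hJ x).1 hx
        exact hskew y hy j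
      · intro W hW x hx
        obtain ⟨y, ⟨hy, hyA⟩, rfl⟩ := (hJ x).1 hx
        obtain ⟨z, hz, rfl⟩ := hsurj j W hW
        refine (hJ _).2 ⟨fun i => br (z i) (y i), ⟨hbr z hz y hy, fun i hi => ?_⟩, rfl⟩
        show br (z i) (y i) = 0
        rw [hyA i hi, br_zero_right]
      · intro hJ0
        have h2 : y0 j ∈ J := (hJ _).2 ⟨y0, ⟨hy0, hA0⟩, rfl⟩
        rw [hJ0, Submodule.mem_bot] at h2
        exact hj0 h2
    obtain ⟨y, ⟨hy, hyA⟩, hyj⟩ := (hJ Z).1 h1
    exact ⟨y, hy, hyA, hyj⟩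
  have L2 : ∀ (A : Finset (Fin r)) (j : Fin r), j ∉ A →
      ∀ Z : Matrix (Fin (m j)) (Fin (m j)) ℂ, Zᵀ = -Z →
        ∃ y ∈ h, (∀ i ∈ A, y i = 0) ∧ y j = Z := by
    intro A
    induction A using Finset.induction_on with
    | empty =>
      intro j _ Z hZ
      obtain ⟨y, hy, hyj⟩ := hsurj j Z hZ
      exact ⟨y, hy, fun i hi => absurd hi (Finset.notMem_empty i), hyj⟩
    | insert i0 A' hi0 ih =>
      intro j hj
      rw [Finset.mem_insert, not_or] at hj
      obtain ⟨W, W', hW, hW', hb⟩ := exists_br_ne (hm j).1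
      obtain ⟨y, hy, hyA, hyj⟩ := ih j hj.2 W hW
      obtain ⟨u, hu, hu0, huj⟩ := hne i0 j (Ne.symm hj.1)
      obtain ⟨y', hy', hyA', hyj'⟩ := L1 {i0} j ⟨u, hu, fun i hi => by
        rw [Finset.mem_singleton] at hi; subst hi; exact hu0, huj⟩ W' hW'
      refine L1 (insert i0 A') j ⟨fun i => br (y i) (y' i), hbr y hy y' hy', fun i hi => ?_, ?_⟩
      · show br (y i) (y' i) = 0
        rw [Finset.mem_insert] at hi
        rcases hi with hi | hi
        · rw [hyA' i (by rw [Finset.mem_singleton]; exact hi), br_zero_right]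
        · rw [hyA i hi, br_zero_left]
      · show br (y j) (y' j) ≠ 0
        rw [hyj, hyj']; exact hb
  intro y hy
  rw [← Finset.univ_sum_single y]
  refine Submodule.sum_mem _ fun j _ => ?_
  obtain ⟨z, hz, hzA, hzj⟩ := L2 (Finset.univ.erase j) j (Finset.notMem_erase j _) (y j) (hy j)
  have e : Pi.single j (y j) = z := by
    funext i
    by_cases hij : i = j
    · subst hij
      rw [Pi.single_eq_same, hzj]
    · rw [Pi.single_eq_of_ne hij, hzA i (Finset.mem_erase.2 ⟨hij, Finset.mem_univ _⟩)]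
  rw [e]
  exact hz

end Pool.Agent.W756.PG
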